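import Pool.Agent.helper36.V3.SpecP

set_option autoImplicit false

/-! # Project v3, CSH: the chain step in the form of `V3S.CS_stmt` -/

open Complex Metric Set Filter Topology MeasureTheory MPS

noncomputable section

namespace V3S

theorem CSH (hCS : PPS.CS_stmt) (hLEA : PPS.LEA_stmt) : CSH_stmt := by
  intro n M h r₀ hn hh hr
  have hn0 : (0 : ℝ) < n := by exact_mod_cast (by omega : 0 < n)
  have hd : 0 < PPS.d3 n M h r₀ := lt_min hr (by positivity)
  have he : 0 < PPS.e3 n M h r₀ := by
    unfold PPS.e3 PPS.cn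
    positivity
  refine ⟨PPS.e3 n M h r₀ / 2, by positivity, 16 * (M + 5) / h ^ 2, by positivity, ?_⟩
  intro k _ f b g ra R E η₀ χ G0 hHC hE1 hη1
  classical
  have hE0 : 0 ≤ E := by
    have h1 : 0 ≤ Real.log ‖PPS.rho f b‖ := Real.log_nonneg hHC.rho1.le
    have h2 : 0 ≤ ∫ z in ball (0 : ℂ) R, ‖PPS.er f b g z‖ := integral_nonneg fun _ => norm_nonneg _
    have h3 := hHC.hE
    have h4 : 0 ≤ 2 * Real.pi * Real.log ‖PPS.rho f b‖ := by positivity
    linarith
  have hη0 : 0 ≤ η₀ := le_trans (Finset.sum_nonneg fun q _ => norm_nonneg _) hHC.eta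
  set S : Set ℕ := {q : ℕ | 1 ≤ q ∧ q < k ∧ ‖G0 q 0 - χ 0‖ < 8 * h * ‖deriv χ 0‖} with hS
  have hfin : S.Finite := (Set.finite_Iio k).subset fun q hq => hq.2.1
  have hSU : PPS.SU3 n k f b g R (E + η₀) h r₀ χ G0 hfin.toFinset M :=
    { hn := hHC.hn
      hdeg := hHC.hdeg
      cyc := hHC.cyc
      rho1 := hHC.rho1
      posR := hHC.posR
      hb := fun j => (hHC.hra j).trans_lt hHC.hR
      inv := hHC.inv
      hE := hHC.hE.trans (by linarith)
      h0 := hHC.h0
      h1 := hHC.h1
      r0 := hHC.r0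
      r1 := hHC.r1
      nat := hHC.nat
      aff := hHC.aff
      mp := hHC.mp
      t0 := hHC.g0
      tdiff := hHC.lev0.diff
      trel := hHC.lev0.rel
      tlev := hHC.eta.trans (by linarith)
      hPP := by
        intro p hp1 hpk hp
        by_contra hcon
        rw [not_le] at hcon
        apply hp
        rw [Set.Finite.mem_toFinset]
        exact ⟨hp1, hpk, hcon⟩
      hM := by
        have := hHC.exc
        rw [← hS, Set.ncard_eq_toFinset_card S hfin] at this
        exact this }
  obtain ⟨G, hG0, hlev, hag, -, -, hsum⟩ := hCS n k f b g R (E + η₀) h r₀ χ G0 hfin.toFinset M hSU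
    (by linarith)
  refine ⟨G, hlev, fun w _ => by rw [hG0], hag, ?_⟩
  intro w hw
  have hcont : ContinuousOn (fun w => ∑ q ∈ Finset.Icc 1 k, PPS.lev b g G q w) (ball 0 (3 * h / 4)) := by
    obtain ⟨-, -, htau, -, -⟩ := hLEA k f b g G (ball 0 (3 * h / 4)) k hHC.cyc isOpen_ball hlev
    refine continuousOn_finsetSum _ fun q hq => ?_
    rw [Finset.mem_Icc] at hq
    have h1 := (htau (q - 1) (by omega)).continuousOn
    have h2 := (htau q hq.2).continuousOn
    exact (h1.sub h2).norm
  have hcl : closure (ball (0 : ℂ) (h / 2)) = closedBall 0 (h / 2) :=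
    closure_ball 0 (by positivity)
  have hle := le_on_closure (s := ball (0 : ℂ) (h / 2))
    (f := fun w => ∑ q ∈ Finset.Icc 1 k, PPS.lev b g G q w)
    (g := fun _ => 16 * (M + 5) / h ^ 2 * (E + η₀))
    (fun w hw => by
      refine ((hsum w hw).1).trans (le_of_eq ?_)
      ring)
    (hcont.mono (by
      rw [hcl]
      exact closedBall_subset_ball (by linarith)))
    continuousOn_const
  rw [hcl] at hle
  exact hle hw

end V3S
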